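import Mathlib

namespace Pool.Agent.MP_3c2488_lc

/-- Propositional formulas in `∧, ∨, →, ⊥` over the variables `0, 1, 2, …`. -/
inductive Fm : Type
  | var : ℕ → Fm
  | bot : Fm
  | and : Fm → Fm → Fm
  | or : Fm → Fm → Fm
  | imp : Fm → Fm → Fm

/-- Application of a substitution to a formula. -/
def Fm.subst (σ : ℕ → Fm) : Fm → Fm
  | .var n => σ n
  | .bot => .bot
  | .and a b => .and (a.subst σ) (b.subst σ)
  | .or a b => .or (a.subst σ) (b.subst σ)
  | .imp a b => .imp (a.subst σ) (b.subst σ)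

/-- Gödel number of a formula. -/
def Fm.code : Fm → ℕ
  | .var n => Nat.pair 0 n
  | .bot => Nat.pair 1 0
  | .and a b => Nat.pair 2 (Nat.pair a.code b.code)
  | .or a b => Nat.pair 3 (Nat.pair a.code b.code)
  | .imp a b => Nat.pair 4 (Nat.pair a.code b.code)

/-- The consequence relation of `S_A`: derivations from `Γ` using all instances of the nine
Hilbert schemes of intuitionistic propositional calculus, all substitution instances of `A`,
and modus ponens. -/
inductive Der (A : Fm) (Γ : Set Fm) : Fm → Prop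
  | hyp (b : Fm) : b ∈ Γ → Der A Γ b
  | extra (σ : ℕ → Fm) : Der A Γ (A.subst σ)
  | k (a b : Fm) : Der A Γ (a.imp (b.imp a))
  | s (a b c : Fm) : Der A Γ ((a.imp (b.imp c)).imp ((a.imp b).imp (a.imp c)))
  | andI (a b : Fm) : Der A Γ (a.imp (b.imp (a.and b)))
  | andL (a b : Fm) : Der A Γ ((a.and b).imp a)
  | andR (a b : Fm) : Der A Γ ((a.and b).imp b)
  | orL (a b : Fm) : Der A Γ (a.imp (a.or b))
  | orR (a b : Fm) : Der A Γ (b.imp (a.or b))
  | orE (a b c : Fm) : Der A Γ ((a.imp c).imp ((b.imp c).imp ((a.or b).imp c)))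
  | efq (a : Fm) : Der A Γ (Fm.bot.imp a)
  | mp (a b : Fm) : Der A Γ (a.imp b) → Der A Γ a → Der A Γ b

/-- A deductive system: a finitary, substitution-invariant consequence relation. -/
def IsDeductiveSystem (S : Set Fm → Fm → Prop) : Prop :=
  (∀ Γ b, b ∈ Γ → S Γ b) ∧
  (∀ Γ Δ b, Γ ⊆ Δ → S Γ b → S Δ b) ∧
  (∀ Γ Δ b, (∀ c ∈ Δ, S Γ c) → S Δ b → S Γ b) ∧
  (∀ Γ b, S Γ b → ∃ Δ, Δ ⊆ Γ ∧ Δ.Finite ∧ S Δ b) ∧
  (∀ (σ : ℕ → Fm) Γ b, S Γ b → S (Fm.subst σ '' Γ) (b.subst σ))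

/-- The rule `Γ / b` is admissible in `S`. -/
def Admissible (S : Set Fm → Fm → Prop) (Γ : Set Fm) (b : Fm) : Prop :=
  ∀ σ : ℕ → Fm, (∀ c ∈ Γ, S ∅ (c.subst σ)) → S ∅ (b.subst σ)

/-- The structural completion of `S`. -/
def completion (S : Set Fm → Fm → Prop) : Set Fm → Fm → Prop :=
  fun Γ b => ∃ Δ, Δ ⊆ Γ ∧ Δ.Finite ∧ Admissible S Δ b

/-- Every admissible rule is derivable. -/
def StructurallyComplete (S : Set Fm → Fm → Prop) : Prop :=
  ∀ Γ b, Γ.Finite → Admissible S Γ b → S Γ b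

/-- Every deductive system deriving all rules that `S` derives is structurally complete. -/
def HereditarilySC (S : Set Fm → Fm → Prop) : Prop :=
  ∀ S' : Set Fm → Fm → Prop, IsDeductiveSystem S' →
    (∀ Γ b, Γ.Finite → S Γ b → S' Γ b) → StructurallyComplete S'

end Pool.Agent.MP_3c2488_lc
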