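import Pool.Agent.Mg.F3c2488p.G8ebd58

/- Formulas in one variable: which structural completions are hereditarily complete. -/

set_option autoImplicit false

section

namespace Pool.Agent.MP_3c2488_lc.One

open Classical

/-- the ladder formulas and their running disjunctions -/
def fD : ℕ → Fm × Fm
  | 0 => (.var 0, .bot)
  | k + 1 => ((fD k).1.imp (fD k).2, (fD k).2.or (fD k).1)

def ff (k : ℕ) : Fm := (fD k).1
def DD (k : ℕ) : Fm := (fD k).2

theorem ff_succ (k : ℕ) : ff (k + 1) = (ff k).imp (DD k) := rfl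
theorem DD_succ (k : ℕ) : DD (k + 1) = (DD k).or (ff k) := rfl

/-- the ladder with a least point -/
inductive RN : Type
  | fin (n : ℕ)
  | inf

def RN.le : RN → RN → Prop
  | .fin n, .fin l => l = n ∨ l + 2 ≤ n
  | .fin _, .inf => False
  | .inf, _ => True

instance : Preorder RN where
  le := RN.le
  le_refl x := by cases x <;> simp [RN.le]
  le_trans x y z := by
    cases x <;> cases y <;> cases z <;> simp only [RN.le, imp_self, false_imp_iff, imp_true_iff]
    omega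

theorem RN.fin_le (n l : ℕ) : RN.fin n ≤ RN.fin l ↔ l = n ∨ l + 2 ≤ n := Iff.rfl
theorem RN.inf_le (t : RN) : RN.inf ≤ t := by cases t <;> trivial
theorem RN.fin_le' {n : ℕ} {t : RN} (h : RN.fin n ≤ t) : ∃ l, t = .fin l ∧ (l = n ∨ l + 2 ≤ n) := by
  cases t with
  | fin l => exact ⟨l, rfl, h⟩
  | inf => exact h.elim

/-- the standard valuation -/
def sv : ℕ → RN → Prop := fun _ t => t = .fin 0

theorem mono_sv : Mono sv := by
  rintro n _ y h rfl
  obtain ⟨l, rfl, hl⟩ := RN.fin_le' h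
  rw [show l = 0 by omega]
  rfl

section

variable {W : Type} [Preorder W] {v : ℕ → W → Prop}

theorem forces_DD (k : ℕ) (x : W) : Forces v (DD k) x ↔ ∃ j < k, Forces v (ff j) x := by
  induction k with
  | zero => simp [DD, fD]
  | succ k ih =>
    rw [DD_succ, forces_or, ih]
    constructor
    · rintro (⟨j, hj, h⟩ | h)
      exacts [⟨j, by omega, h⟩, ⟨k, by omega, h⟩]
    · rintro ⟨j, hj, h⟩
      by_cases e : j = k
      · exact Or.inr (e ▸ h)
      · exact Or.inl ⟨j, by omega, h⟩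

/-- the type of a point -/
noncomputable def ty (v : ℕ → W → Prop) (x : W) : RN :=
  if h : ∃ k, Forces v (ff k) x then .fin (Nat.find h) else .inf

theorem ty_eq (x : W) (n : ℕ) :
    ty v x = .fin n ↔ Forces v (ff n) x ∧ ∀ j < n, ¬ Forces v (ff j) x := by
  unfold ty
  split_ifs with h
  · rw [RN.fin.injEq, Nat.find_eq_iff]
  · exact ⟨fun e => (by cases e), fun e => (h ⟨n, e.1⟩).elim⟩

theorem ty_inf {x : W} (h : ty v x = .inf) (k : ℕ) : ¬ Forces v (ff k) x := by
  intro hk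
  unfold ty at h
  rw [dif_pos ⟨k, hk⟩] at h
  cases h

theorem not_ff_succ (x : W) (k : ℕ) :
    ¬ Forces v (ff (k + 1)) x ↔ ∃ y, x ≤ y ∧ ty v y = .fin k := by
  simp only [ff_succ, forces_imp, forces_DD, ty_eq, not_forall, not_exists, not_and, exists_prop]

theorem ty_zero (x : W) : ty v x = .fin 0 ↔ v 0 x := by
  rw [ty_eq]
  exact ⟨fun h => h.1, fun h => ⟨h, fun _ hj => by omega⟩⟩

theorem ty_mono (hv : Mono v) (x y : W) (h : x ≤ y) : ty v x ≤ ty v y := by
  cases hx : ty v x with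
  | inf => exact RN.inf_le _
  | fin n =>
    have h1 := ((ty_eq x n).1 hx).1
    cases hy : ty v y with
    | inf => exact (ty_inf hy n (Forces.mono hv _ h h1)).elim
    | fin l =>
      have h2 : ¬ n < l := fun hl => ((ty_eq y l).1 hy).2 n hl (Forces.mono hv _ h h1)
      have h3 : n ≠ l + 1 := by
        rintro rfl
        exact (not_ff_succ x l).2 ⟨y, h, hy⟩ h1
      rw [RN.fin_le]
      omega

theorem ty_back (x : W) (t : RN) (h : ty v x ≤ t) : ∃ y, x ≤ y ∧ ty v y = t := by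
  cases t with
  | inf =>
    cases hx : ty v x with
    | inf => exact ⟨x, le_rfl, hx⟩
    | fin n => rw [hx] at h; exact h.elim
  | fin l =>
    cases hx : ty v x with
    | inf => exact (not_ff_succ x l).1 (ty_inf hx _)
    | fin n =>
      rw [hx, RN.fin_le] at h
      rcases h with rfl | h
      · exact ⟨x, le_rfl, hx⟩
      · exact (not_ff_succ x l).1 (((ty_eq x n).1 hx).2 _ (by omega))

theorem sees_iff (hv : Mono v) (x : W) (t : RN) : (∃ y, x ≤ y ∧ ty v y = t) ↔ ty v x ≤ t :=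
  ⟨fun ⟨y, h, e⟩ => e ▸ ty_mono hv x y h, ty_back x t⟩

theorem forces_ff (hv : Mono v) (x : W) (k : ℕ) :
    Forces v (ff (k + 1)) x ↔ ¬ ty v x ≤ .fin k := by
  rw [← sees_iff hv, ← not_ff_succ, not_not]

end

/-- only the variable `0` occurs -/
def OneV (A : Fm) : Prop := A.subst (fun _ => .var 0) = A

/-- the upset of the ladder defined by a formula -/
def UA (A : Fm) (t : RN) : Prop := Forces sv A t

theorem UA.mono {A : Fm} {s t : RN} (h : UA A s) (hst : s ≤ t) : UA A t :=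
  Forces.mono mono_sv A hst h

theorem UA.down {A : Fm} {n l : ℕ} (h : UA A (.fin n)) (hl : l + 2 ≤ n) : UA A (.fin l) :=
  h.mono (Or.inr hl)

theorem forces_one {A : Fm} (hA : OneV A) {W : Type} [Preorder W] {v : ℕ → W → Prop}
    (hv : Mono v) (x : W) : Forces v A x ↔ UA A (ty v x) := by
  have e : (fun (_ : ℕ) (x : W) => Forces v (.var 0) x) = fun n x => sv n (ty v x) := by
    funext n x
    exact propext (ty_zero x).symm
  conv_lhs => rw [← hA]
  rw [forces_subst, UA, ← forces_pmorph (ty v) (ty_mono hv) ty_back sv A x, ← e]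

theorem valid_of_ty {A : Fm} (hA : OneV A) {W : Type} [Preorder W]
    (h : ∀ v : ℕ → W → Prop, Mono v → ∀ x, UA A (ty v x)) : Valid W A :=
  fun v hv x => (forces_one hA hv x).2 (h v hv x)

/-- in the canonical model every type with respect to a formula `q` lies in the upset of `A` -/
theorem can_ty {A : Fm} (hA : OneV A) (q : Fm) (T : Can A) :
    UA A (ty (fun _ => Forces (canVal A) q) T) := by
  have h := der_iff_can.1 (Der.extra (A := A) (Γ := ∅) fun _ => q) T
  rw [forces_subst] at h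
  exact (forces_one hA (mono_subst mono_canVal fun _ => q) T).1 h

theorem ty_sv (n : ℕ) : ty sv (RN.fin n) = .fin n := by
  induction n using Nat.strong_induction_on with
  | _ n ih =>
    have key : ∀ k, k ≤ n → (Forces sv (ff k) (RN.fin n) ↔ k = n) := by
      intro k hk
      cases k with
      | zero => exact ⟨fun h => (RN.fin.inj h).symm, fun h => by rw [← h]; rfl⟩
      | succ k =>
        rw [← not_not (a := Forces _ _ _), not_ff_succ]
        constructor
        · intro h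
          by_contra hne
          exact h ⟨.fin k, Or.inr (by omega), ih k (by omega)⟩
        · rintro rfl ⟨y, hy, e⟩
          obtain ⟨l, rfl, rfl | hl⟩ := RN.fin_le' hy
          · have h1 := ty_back (v := sv) (RN.fin (k + 1)) (.fin k) (by rw [e])
            cases k with
            | zero => exact absurd (RN.fin.inj ((ty_zero _).1 e)) (by omega)
            | succ k =>
              have h2 := ty_mono mono_sv (RN.fin (k + 2)) (.fin k) (Or.inr le_rfl)
              rw [e, ih k (by omega), RN.fin_le] at h2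
              omega
          · rw [ih l (by omega)] at e
            have := RN.fin.inj e
            omega
    exact (ty_eq _ n).2 ⟨(key n le_rfl).2 rfl, fun j hj h => by
      have := (key j hj.le).1 h
      omega⟩

/-- a valuation on the ladder is standard or has only small types -/
theorem ty_ladder {v : ℕ → RN → Prop} (hv : Mono v) (j : ℕ) :
    ty v (RN.fin j) = .fin j ∨ ∃ n ≤ 3, ty v (RN.fin j) = .fin n := by
  by_cases h2 : ty v (RN.fin j) ≤ .fin 2 ∧ ty v (RN.fin j) ≤ .fin 1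
  · left
    obtain ⟨y, hy, e2⟩ := ty_back _ _ h2.1
    obtain ⟨z, hz, e1⟩ := ty_back _ _ h2.2
    have top : ∀ i, i ≤ 1 → ∀ w, w ≤ RN.fin i → ¬ ty v w ≤ .fin 1 → v 0 (.fin i) := by
      intro i hi w hw h
      by_contra h0
      have h3 : ∀ t, ty v (RN.fin i) ≤ t → ty v (RN.fin i) = t := by
        intro t ht
        obtain ⟨u, hu, rfl⟩ := ty_back _ _ ht
        obtain ⟨l, rfl, hl⟩ := RN.fin_le' hu
        rw [show l = i by omega]
      have h4 := ty_mono hv _ _ hw
      cases hi' : ty v (RN.fin i) with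
      | inf => exact absurd (hi'.symm.trans (h3 (.fin 0) (hi' ▸ RN.inf_le _))) (by simp)
      | fin n =>
        by_cases hn : 2 ≤ n
        · have := hi'.symm.trans (h3 (.fin 0) (hi' ▸ Or.inr (by omega)))
          have := RN.fin.inj this
          omega
        · have hn0 : n ≠ 0 := fun e => h0 ((ty_zero _).1 (e ▸ hi'))
          rw [hi', show n = 1 by omega] at h4
          exact h h4
    have ny : ¬ ty v y ≤ .fin 1 := by rw [e2, RN.fin_le]; omega
    have nz : ∀ w, z ≤ w → ¬ v 0 w := fun w hw h0 => by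
      have := ty_mono hv _ _ hw
      rw [e1, (ty_zero w).2 h0, RN.fin_le] at this
      omega
    have ny0 : ¬ v 0 y := fun h0 => by
      rw [(ty_zero y).2 h0] at e2
      cases e2
    obtain ⟨a, rfl, -⟩ := RN.fin_le' hy
    obtain ⟨b, rfl, -⟩ := RN.fin_le' hz
    have ha : 2 ≤ a := by
      by_contra h
      exact ny0 (top a (by omega) _ le_rfl ny)
    have h0 : v 0 (.fin 0) := top 0 (by omega) _ (Or.inr (by omega)) ny
    have hb : b = 1 := by
      by_contra h
      exact nz (.fin 0) (by rw [RN.fin_le]; omega) h0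
    subst hb
    have ha2 : a = 2 := by
      by_contra h
      exact nz _ le_rfl (top 1 le_rfl _ (Or.inr (by omega)) ny)
    subst ha2
    have e : ∀ t, v 0 t ↔ sv 0 t := by
      intro t
      refine ⟨fun ht => ?_, fun ht => ht ▸ h0⟩
      cases t with
      | inf => exact (nz _ le_rfl (hv 0 _ _ (RN.inf_le _) ht)).elim
      | fin l =>
        by_contra hl
        have hl0 : l ≠ 0 := fun e => hl (congrArg RN.fin e)
        by_cases h : l = 2
        · exact ny0 (h ▸ ht)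
        · exact nz _ le_rfl (hv 0 _ _ (by rw [RN.fin_le]; omega) ht)
    have key : ∀ k x, (Forces v (ff k) x ↔ Forces sv (ff k) x) ∧
        (Forces v (DD k) x ↔ Forces sv (DD k) x) := by
      intro k
      induction k with
      | zero => exact fun x => ⟨e x, Iff.rfl⟩
      | succ k ih =>
        intro x
        simp only [ff_succ, DD_succ, forces_imp, forces_or, (ih _).1, (ih _).2, and_self]
    have := (ty_eq _ j).1 (ty_sv j)
    exact (ty_eq _ j).2 ⟨(key j _).1.2 this.1, fun i hi h => this.2 i hi ((key i _).1.1 h)⟩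
  · right
    cases h : ty v (RN.fin j) with
    | inf => exact (h2 (h ▸ ⟨RN.inf_le _, RN.inf_le _⟩)).elim
    | fin n =>
      refine ⟨n, ?_, rfl⟩
      rw [h, RN.fin_le, RN.fin_le] at h2
      omega

end Pool.Agent.MP_3c2488_lc.One

end

section

namespace Pool.Agent.MP_3c2488_lc.One

open Classical

variable {A : Fm}

theorem cone_sound {W : Type} [Preorder W] {x0 : W}
    (h : ∀ v : ℕ → W → Prop, Mono v → ∀ y, x0 ≤ y → Forces v A y) {b : Fm} (hb : Der A ∅ b)
    {v : ℕ → W → Prop} (hv : Mono v) : Forces v b x0 := by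
  have pm := forces_pmorph (W := {y // x0 ≤ y}) (W' := W) Subtype.val (fun _ _ h => h)
    (fun x y' h => ⟨⟨y', x.2.trans h⟩, h, rfl⟩)
  have hA : Valid {y // x0 ≤ y} A := by
    intro u hu y
    have e : u = fun n (y : {y // x0 ≤ y}) => (fun n t => ∃ h : x0 ≤ t, u n ⟨t, h⟩) n y.1 := by
      funext n y
      exact propext ⟨fun h => ⟨y.2, h⟩, fun h => h.2⟩
    rw [e]
    refine (pm (fun n t => ∃ h : x0 ≤ t, u n ⟨t, h⟩) A y).2 (h _ ?_ _ y.2)
    rintro n a b hab ⟨h1, h2⟩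
    exact ⟨h1.trans hab, hu n ⟨a, h1⟩ ⟨b, h1.trans hab⟩ hab h2⟩
  exact (pm v b ⟨x0, le_rfl⟩).1 (hb.valid hA _ (fun n _ _ hab => hv n _ _ hab) _)

/-- dense formulas -/
def Dn (A a : Fm) : Prop := ∀ T : Can A, ∃ U, T ≤ U ∧ Forces (canVal A) a U
/-- refutable formulas -/
def Nl (A a : Fm) : Prop := ∀ T : Can A, ¬ Forces (canVal A) a T
def GoodS (A : Fm) (σ : ℕ → Fm) : Prop := ∀ n, Dn A (σ n) ∨ Nl A (σ n)

theorem Dn.and {a b : Fm} (ha : Dn A a) (hb : Dn A b) : Dn A (a.and b) := fun T => by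
  obtain ⟨U, hU, h1⟩ := ha T
  obtain ⟨V, hV, h2⟩ := hb U
  exact ⟨V, hU.trans hV, Forces.mono mono_canVal _ hV h1, h2⟩

theorem Dn.of {a b : Fm} (ha : Dn A a)
    (h : ∀ T, Forces (canVal A) a T → Forces (canVal A) b T) : Dn A b := fun T =>
  (ha T).imp fun U hU => ⟨hU.1, h U hU.2⟩

theorem Dn.imp {a b : Fm} (hb : Dn A b) : Dn A (a.imp b) :=
  hb.of fun _ h _ hy _ => Forces.mono mono_canVal _ hy h

theorem Nl.imp {a b : Fm} (ha : Nl A a) : Dn A (a.imp b) :=
  fun T => ⟨T, le_rfl, fun y _ h => (ha y h).elim⟩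

theorem dn_em (a : Fm) : Dn A (a.or a.neg) := fun T => by
  by_cases h : ∃ U, T ≤ U ∧ Forces (canVal A) a U
  · exact h.imp fun U hU => ⟨hU.1, Or.inl hU.2⟩
  · exact ⟨T, le_rfl, Or.inr fun y hy ha => h ⟨y, hy, ha⟩⟩

theorem GoodS.all {σ : ℕ → Fm} (h : GoodS A σ) (φ : Fm) :
    Dn A (φ.subst σ) ∨ Nl A (φ.subst σ) := by
  induction φ with
  | var n => exact h n
  | bot => exact Or.inr fun _ h => h
  | and a b iha ihb =>
    rcases iha with ha | ha
    · exact ihb.imp ha.and fun hb T h => hb T h.2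
    · exact Or.inr fun T h => ha T h.1
  | or a b iha ihb =>
    rcases iha with ha | ha
    · exact Or.inl (ha.of fun _ => Or.inl)
    · exact ihb.imp (fun hb => hb.of fun _ => Or.inr) fun hb T h => h.elim (ha T) (hb T)
  | imp a b iha ihb =>
    rcases iha with ha | ha
    · refine ihb.imp Dn.imp fun hb T h => ?_
      obtain ⟨U, hU, h1⟩ := ha T
      exact hb U (h U hU h1)
    · exact Or.inl ha.imp

/-- rules that hold under dense or refutable substitutions -/
def SD (A : Fm) (Γ : Set Fm) (b : Fm) : Prop := ∃ Δ, Δ ⊆ Γ ∧ Δ.Finite ∧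
  ∀ σ, GoodS A σ → (∀ c ∈ Δ, Der A ∅ (c.subst σ)) → Der A ∅ (b.subst σ)

theorem SD_empty {b : Fm} : SD A ∅ b ↔ ∀ σ, GoodS A σ → Der A ∅ (b.subst σ) := by
  constructor
  · rintro ⟨Δ, hΔ, -, h⟩ σ hσ
    exact h σ hσ fun c hc => (hΔ hc).elim
  · intro h
    exact ⟨∅, le_rfl, Set.finite_empty, fun σ hσ _ => h σ hσ⟩

theorem SD_ded : IsDeductiveSystem (SD A) := by
  refine ⟨?_, ?_, ?_, ?_, ?_⟩
  · intro Γ b hb
    exact ⟨{b}, by simpa, Set.finite_singleton b, fun σ _ h => h b rfl⟩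
  · rintro Γ Δ b h ⟨E, h1, h2, h3⟩
    exact ⟨E, h1.trans h, h2, h3⟩
  · rintro Γ Δ b h ⟨E, h1, h2, h3⟩
    choose! F hF1 hF2 hF3 using h
    refine ⟨⋃ c ∈ E, F c, ?_, h2.biUnion fun c hc => hF2 c (h1 hc), fun σ hσ H => ?_⟩
    · exact Set.iUnion₂_subset fun c hc => hF1 c (h1 hc)
    · refine h3 σ hσ fun c hc => hF3 c (h1 hc) σ hσ fun d hd => H d ?_
      exact Set.mem_biUnion hc hd
  · rintro Γ b ⟨E, h1, h2, h3⟩
    exact ⟨E, h1, h2, E, le_rfl, h2, h3⟩
  · rintro τ Γ b ⟨E, h1, h2, h3⟩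
    refine ⟨Fm.subst τ '' E, Set.image_mono h1, h2.image _, fun σ hσ H => ?_⟩
    rw [Fm.subst_subst]
    refine h3 _ (fun n => hσ.all (τ n)) fun c hc => ?_
    rw [← Fm.subst_subst]
    exact H _ (Set.mem_image_of_mem _ hc)

def mP (P Q R C : Fm) : Fm := ((P.imp Q).imp (P.or R)).or C
def mC (P Q R C : Fm) : Fm := (((P.imp Q).imp P).or ((P.imp Q).imp R)).or C

/-- the canonical model with a new top -/
def uT (A : Fm) (σ : ℕ → Fm) (n : ℕ) (x : WithTop (Can A)) : Prop :=
  x.recTopCoe (Dn A (σ n)) fun T => Forces (canVal A) (σ n) T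

theorem mono_uT {σ : ℕ → Fm} (h : GoodS A σ) : Mono (uT A σ) := by
  intro n x y hxy hx
  induction x using WithTop.recTopCoe with
  | top => rwa [top_le_iff.1 hxy]
  | coe T =>
    induction y using WithTop.recTopCoe with
    | top => exact (h n).resolve_right fun hn => hn T hx
    | coe U => exact Forces.mono mono_canVal _ (WithTop.coe_le_coe.1 hxy) hx

theorem forces_uT {σ : ℕ → Fm} (h : GoodS A σ) (T0 : Can A) (φ : Fm) :
    (∀ T : Can A, Forces (uT A σ) φ T ↔ Forces (canVal A) (φ.subst σ) T) ∧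
      (Forces (uT A σ) φ ⊤ ↔ Dn A (φ.subst σ)) := by
  have ex : ∀ {a : Fm}, Dn A a → ¬ Nl A a := fun ha hn => (ha T0).elim fun U hU => hn U hU.2
  induction φ with
  | var n => exact ⟨fun _ => Iff.rfl, Iff.rfl⟩
  | bot => exact ⟨fun _ => Iff.rfl, False.elim, fun hb => ex hb fun _ h => h⟩
  | and a b iha ihb =>
    refine ⟨fun T => and_congr (iha.1 T) (ihb.1 T), ?_⟩
    rw [forces_and, iha.2, ihb.2]
    exact ⟨fun h => h.1.and h.2, fun h => ⟨h.of fun _ => And.left, h.of fun _ => And.right⟩⟩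
  | or a b iha ihb =>
    refine ⟨fun T => or_congr (iha.1 T) (ihb.1 T), ?_⟩
    rw [forces_or, iha.2, ihb.2]
    refine ⟨fun h => h.elim (fun h => h.of fun _ => Or.inl) fun h => h.of fun _ => Or.inr,
      fun hd => ?_⟩
    by_contra hn
    exact ex hd fun T hT => hT.elim ((h.all a).resolve_left (fun e => hn (Or.inl e)) T)
      ((h.all b).resolve_left (fun e => hn (Or.inr e)) T)
  | imp a b iha ihb =>
    have key : ∀ T : Can A, Forces (canVal A) ((a.imp b).subst σ) T →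
        Dn A (a.subst σ) → Dn A (b.subst σ) := fun T hT ha =>
      (h.all b).resolve_right fun hb => (ha T).elim fun U hU => hb U (hT U hU.1 hU.2)
    refine ⟨fun T => ⟨fun H U hU ha => ?_, fun H y hy ha => ?_⟩, fun H => ?_, fun H y hy ha => ?_⟩
    · exact (ihb.1 U).1 (H U (WithTop.coe_le_coe.2 hU) ((iha.1 U).2 ha))
    · induction y using WithTop.recTopCoe with
      | top => exact ihb.2.2 (key T H (iha.2.1 ha))
      | coe U => exact (ihb.1 U).2 (H U (WithTop.coe_le_coe.1 hy) ((iha.1 U).1 ha))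
    · exact (h.all a).elim (fun ha => (ihb.2.1 (H ⊤ le_rfl (iha.2.2 ha))).imp) Nl.imp
    · rw [top_le_iff.1 hy] at ha ⊢
      obtain ⟨U, -, hU⟩ := H T0
      exact ihb.2.2 (key U hU (iha.2.1 ha))

theorem cl_le_top {W : Type} [PartialOrder W] [OrderTop W] (x : Cl W) : x ≤ .old ⊤ := by
  induction x with
  | old a => exact ⟨⊤, le_top, rfl⟩
  | new n f ih => exact Or.inr ⟨0, ih 0⟩

theorem adm (hK : ∀ (W : Type) [Preorder W], FewTops W 2 → Valid W A) {P Q R C : Fm}
    (h : ∀ σ, GoodS A σ → Der A ∅ ((mP P Q R C).subst σ)) (σ : ℕ → Fm) (hσ : GoodS A σ) :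
    Der A ∅ ((mC P Q R C).subst σ) := by
  rw [der_iff_can]
  intro T
  by_contra hn
  rw [← (forces_uT hσ T _).1, forces_old] at hn
  have hw := mono_clVal (mono_uT hσ)
  simp only [mC, forces_or, not_or] at hn
  obtain ⟨⟨h1, h2⟩, h3⟩ := hn
  rw [forces_imp] at h1 h2
  push Not at h1 h2
  obtain ⟨x1, -, h11, h12⟩ := h1
  obtain ⟨x2, -, h21, h22⟩ := h2
  let σ' : ℕ → Fm := fun n => if Dn A (σ n) then (Fm.var n).or (Fm.var n).neg else .bot
  have hσ' : GoodS A σ' := fun n => by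
    by_cases e : Dn A (σ n)
    · exact Or.inl (by simp only [σ', if_pos e]; exact dn_em _)
    · exact Or.inr (by simp only [σ', if_neg e]; exact fun _ h => h)
  have hF : FewTops (Cl (WithTop (Can A))) 2 :=
    ⟨{.old ⊤}, by simp, fun x => ⟨_, Finset.mem_singleton_self _, cl_le_top x⟩⟩
  have h4 := (h σ' hσ').valid (hK _ hF) _ hw (.new 1 ![.new 1 ![x1, x2], .old (T : WithTop _)])
  have e : (fun n => Forces (clVal (uT A σ)) (σ' n)) = clVal (uT A σ) := by
    funext n x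
    refine propext ?_
    by_cases e : Dn A (σ n)
    · simp only [σ', if_pos e]
      exact ⟨fun h => h.elim id fun h => (h _ (cl_le_top x) e).elim, Or.inl⟩
    · simp only [σ', if_neg e]
      exact ⟨False.elim, fun h => e (hw n x _ (cl_le_top x) h)⟩
  rw [forces_subst, e] at h4
  rcases h4 with h4 | h4
  · have l1 : Cl.new 1 ![x1, x2] ≤ x1 := Or.inr ⟨0, le_rfl (a := x1)⟩
    have l2 : Cl.new 1 ![x1, x2] ≤ x2 := Or.inr ⟨1, le_rfl (a := x2)⟩
    refine (h4 (.new 1 ![x1, x2]) (Or.inr ⟨0, le_rfl (a := Cl.new 1 ![x1, x2])⟩) ?_).elim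
      (fun h => h12 (Forces.mono hw _ l1 h)) fun h => h22 (Forces.mono hw _ l2 h)
    rintro y (rfl | ⟨i, hi⟩) hy
    · exact (h12 (Forces.mono hw _ l1 hy)).elim
    · fin_cases i
      exacts [h11 y hi hy, h21 y hi hy]
  · exact h3 (Forces.mono hw _ (Or.inr ⟨1, le_rfl (a := Cl.old (T : WithTop (Can A)))⟩) h4)

theorem neg_of (hK : ∀ (W : Type) [Preorder W], FewTops W 2 → Valid W A) {P Q R C : Fm}
    (hP : Dn A P) (hQ : Dn A Q) (hR : Dn A R) (hC : Dn A C) (h1 : Der A ∅ (mP P Q R C))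
    (h2 : ¬ Der A ∅ (mC P Q R C)) : ¬ HereditarilySC (completion (Der A)) := by
  intro H
  obtain ⟨Δ, hΔ, -, h⟩ := H (SD A) SD_ded
    (fun Γ b _ ⟨Δ, h1, h2, h3⟩ => ⟨Δ, h1, h2, fun σ _ => h3 σ⟩)
    {mP (.var 0) (.var 1) (.var 2) (.var 3)} (mC (.var 0) (.var 1) (.var 2) (.var 3))
    (Set.finite_singleton _) fun τ hτ => SD_empty.2
      (adm hK (P := τ 0) (Q := τ 1) (R := τ 2) (C := τ 3) (SD_empty.1 (hτ _ rfl)))
  refine h2 (h (fun n => if n = 0 then P else if n = 1 then Q else if n = 2 then R else C)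
    (fun n => Or.inl ?_) fun c hc => ?_)
  · dsimp only
    split_ifs <;> assumption
  · rw [hΔ hc]
    exact h1

end Pool.Agent.MP_3c2488_lc.One

end

section

set_option synthInstance.maxSize 4000

namespace Pool.Agent.MP_3c2488_lc.One

variable {A : Fm}

theorem RN.small {i : ℕ} (hi : i ≤ 1) {t : RN} (h : RN.fin i ≤ t) : t = .fin i := by
  obtain ⟨l, rfl, hl⟩ := RN.fin_le' h
  rw [show l = i by omega]

section

variable {W : Type} [Preorder W] {v : ℕ → W → Prop}

theorem no_join (hv : Mono v) {a b m : W} (ha : ty v a = .fin 0) (hb : ty v b = .fin 1)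
    (h1 : a ≤ m) (h2 : b ≤ m) : False := by
  have e1 := RN.small (by omega) (ha ▸ ty_mono hv a m h1)
  have e2 := RN.small le_rfl (hb ▸ ty_mono hv b m h2)
  rw [e1] at e2
  cases e2

theorem ty_few (h : FewTops W 2) (hv : Mono v) (x : W) : ∃ n ≤ 2, ty v x = .fin n := by
  have key : ¬ (ty v x ≤ .fin 0 ∧ ty v x ≤ .fin 1) := by
    rintro ⟨h0, h1⟩
    obtain ⟨a, -, ha⟩ := ty_back _ _ h0
    obtain ⟨b, -, hb⟩ := ty_back _ _ h1
    obtain ⟨M, hM, hc⟩ := h
    obtain ⟨m, hm, ham⟩ := hc a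
    obtain ⟨m', hm', hbm⟩ := hc b
    rw [← Finset.card_le_one.1 (by omega) m hm m' hm'] at hbm
    exact no_join hv ha hb ham hbm
  cases e : ty v x with
  | inf => exact (key (e ▸ ⟨RN.inf_le _, RN.inf_le _⟩)).elim
  | fin n =>
    rw [e, RN.fin_le, RN.fin_le] at key
    exact ⟨n, by omega, rfl⟩

theorem ty_top {m : W} (hm : ∀ y, m ≤ y → y = m) : ty v m = .fin 0 ∨ ty v m = .fin 1 := by
  by_cases h : ty v m ≤ .fin 0
  · obtain ⟨y, hy, e⟩ := ty_back _ _ h
    exact Or.inl (hm y hy ▸ e)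
  · cases e : ty v m with
    | inf => exact (h (e ▸ RN.inf_le _)).elim
    | fin n =>
      rw [e, RN.fin_le] at h
      exact Or.inr (by rw [show n = 1 by omega])

theorem ty_one {x : W} (h : ∀ y, x ≤ y → ¬ v 0 y) : ty v x = .fin 1 :=
  (ty_eq x 1).2 ⟨fun y hy h0 => h y hy h0, fun j hj h0 => by
    rw [show j = 0 by omega] at h0
    exact h x le_rfl h0⟩

theorem ty_two {x : W} (h0 : ¬ v 0 x) (h : ∀ y, x ≤ y → ∃ z, y ≤ z ∧ v 0 z) :
    ty v x = .fin 2 := by
  have h1 : ∀ y, x ≤ y → ¬ Forces v (ff 1) y := fun y hy h1 =>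
    (h y hy).elim fun z hz => h1 z hz.1 hz.2
  refine (ty_eq x 2).2 ⟨fun y hy h2 => (h1 y hy h2).elim, fun j hj => ?_⟩
  interval_cases j
  exacts [h0, h1 x le_rfl]

theorem ty_three (hv : Mono v) {y m m' : W} (h1 : y ≤ m) (h2 : y ≤ m') (e1 : ty v m = .fin 0)
    (e2 : ty v m' = .fin 1) (h : ∀ w, y ≤ w → w = y ∨ w = m ∨ w = m') : ty v y = .fin 3 := by
  have a1 := e1 ▸ ty_mono hv y m h1
  have a2 := e2 ▸ ty_mono hv y m' h2
  have a3 : ¬ ty v y ≤ .fin 2 := fun h3 => by
    obtain ⟨w, hw, e⟩ := ty_back _ _ h3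
    rcases h w hw with rfl | rfl | rfl
    · rw [e, RN.fin_le] at a2
      omega
    · rw [e1] at e
      cases e
    · rw [e2] at e
      cases e
  cases e : ty v y with
  | inf => exact (a3 (e ▸ RN.inf_le _)).elim
  | fin n =>
    rw [e, RN.fin_le] at a1 a2 a3
    rw [show n = 3 by omega]

theorem two_tops (hv : Mono v) (hT : ∀ x : W, ∃ m, x ≤ m ∧ ∀ y, m ≤ y → y = m) {x : W}
    (h0 : ty v x ≤ .fin 0) (h1 : ty v x ≤ .fin 1) : ∃ m m', x ≤ m ∧ x ≤ m' ∧
      (∀ y, m ≤ y → y = m) ∧ (∀ y, m' ≤ y → y = m') ∧ ty v m = .fin 0 ∧ ty v m' = .fin 1 := by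
  obtain ⟨a, hxa, ha⟩ := ty_back _ _ h0
  obtain ⟨b, hxb, hb⟩ := ty_back _ _ h1
  obtain ⟨m, h2, h3⟩ := hT a
  obtain ⟨m', h4, h5⟩ := hT b
  exact ⟨m, m', hxa.trans h2, hxb.trans h4, h3, h5,
    RN.small (by omega) (ha ▸ ty_mono hv a m h2), RN.small le_rfl (hb ▸ ty_mono hv b m' h4)⟩

end

/-- excluded middle for the second variable -/
def dl : Fm := (Fm.var 1).or (Fm.var 1).neg

theorem prem (hA : OneV A) (i : ℕ) (hU : ∀ t, UA A t → ∃ n ≤ i + 4, t = .fin n) :
    Der A ∅ (mP ((ff (i + 2)).or dl) (ff (i + 3)) ((ff (i + 1)).or dl) (ff (i + 3))) := by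
  rw [der_iff_can]
  intro T
  have hv := mono_canVal (A := A)
  by_contra hn
  simp only [mP, forces_or, not_or] at hn
  obtain ⟨h1, h2⟩ := hn
  rw [forces_imp] at h1
  push Not at h1
  obtain ⟨U, hTU, h3, h4⟩ := h1
  simp only [forces_or, not_or] at h4
  have h5 : Forces (canVal A) (ff (i + 3)) U := fun V hV h => h3 V hV (Or.inl h) V le_rfl h
  have h6 := h4.1.1
  have h7 := h4.2.1
  rw [forces_ff hv, not_not] at h2 h6 h7
  rw [forces_ff hv] at h5
  have h8 := ty_mono hv T U hTU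
  have h9 : Forces (canVal A) A T := by
    have := der_iff_can.1 (Der.extra (A := A) (Γ := ∅) Fm.var) T
    rwa [Fm.subst_var] at this
  obtain ⟨n, hn, e⟩ := hU _ ((forces_one hA hv T).1 h9)
  rw [e] at h2 h8
  obtain ⟨l, e', hl⟩ := RN.fin_le' h8
  rw [e', RN.fin_le] at h5 h6 h7
  rw [RN.fin_le] at h2
  omega

theorem dn_ff (i : ℕ) : Dn A (ff (i + 3)) := fun T => by
  have hv := mono_canVal (A := A)
  by_cases h : ty (canVal A) T ≤ .fin 0
  · obtain ⟨U, hU, e⟩ := ty_back _ _ h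
    exact ⟨U, hU, (forces_ff hv _ _).2 (by rw [e, RN.fin_le]; omega)⟩
  · exact ⟨T, le_rfl, (forces_ff hv _ _).2 fun h1 => h (h1.trans (Or.inr (by omega)))⟩

theorem neg_frame (hA : OneV A) (i : ℕ) (hU : ∀ t, UA A t → ∃ n ≤ i + 4, t = .fin n)
    (h2 : ∀ n ≤ 2, UA A (.fin n)) {W : Type} [Preorder W] {r x1 x2 : W}
    (h : ∀ v : ℕ → W → Prop, Mono v → ∀ y, r ≤ y → UA A (ty v y)) {v : ℕ → W → Prop}
    (hv : Mono v) (l1 : r ≤ x1) (l2 : r ≤ x2) (e1 : ty v x1 = .fin (i + 1))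
    (e2 : ty v x2 = .fin i) (e3 : ty v r ≤ .fin (i + 2)) (d1 : ¬ Forces v dl x1)
    (d2 : ¬ Forces v dl x2) : ¬ HereditarilySC (completion (Der A)) := by
  have hd : ∀ a : Fm, Dn A (a.or dl) := fun a => (dn_em (.var 1)).of fun _ => Or.inr
  refine neg_of (fun W _ hW => valid_of_ty hA fun v hv x => ?_) (hd _) (dn_ff i) (hd _) (dn_ff i)
    (prem hA i hU) fun hc => ?_
  · obtain ⟨n, hn, e⟩ := ty_few hW hv x
    exact e ▸ h2 n hn
  · have a1 : Forces v (ff (i + 3)) x1 := (forces_ff hv _ _).2 (by rw [e1, RN.fin_le]; omega)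
    have a2 : Forces v (ff (i + 3)) x2 := (forces_ff hv _ _).2 (by rw [e2, RN.fin_le]; omega)
    rcases cone_sound (fun v hv y hy => (forces_one hA hv y).2 (h v hv y hy)) hc hv with
      (h1 | h1) | h1
    · exact (h1 x1 l1 fun y hy _ => Forces.mono hv _ hy a1).elim
        (fun h => (forces_ff hv _ _).1 h (e1 ▸ le_rfl)) d1
    · exact (h1 x2 l2 fun y hy _ => Forces.mono hv _ hy a2).elim
        (fun h => (forces_ff hv _ _).1 h (e2 ▸ le_rfl)) d2
    · exact (forces_ff hv _ _).1 h1 e3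

theorem ladder_cone {m : ℕ} (h3 : ∀ n ≤ 3, UA A (.fin n)) (hm : UA A (.fin m))
    (v : ℕ → RN → Prop) (hv : Mono v) (y : RN) (hy : RN.fin m ≤ y) : UA A (ty v y) := by
  obtain ⟨l, rfl, -⟩ := RN.fin_le' hy
  rcases ty_ladder hv l with e | ⟨n, hn, e⟩
  · exact e.symm ▸ hm.mono hy
  · exact e ▸ h3 n hn

/-- two six-point frames: `0` is the root, `4` and `5` are the tops -/
def P6 (_ : Bool) : Type := Fin 6

instance (b : Bool) : Fintype (P6 b) := inferInstanceAs (Fintype (Fin 6))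
instance (b : Bool) : DecidableEq (P6 b) := inferInstanceAs (DecidableEq (Fin 6))

def le6 (b : Bool) (x y : Fin 6) : Bool :=
  x = y || x = 0 || (x = 1 && y = 4) || (x = 2 && y = 5) || (x = 3 && y = 4) ||
    (if b then x = 3 && y = 5 else x = 1 && y = 3)

theorem le6_refl : ∀ (b : Bool) (x : Fin 6), le6 b x x = true := by decide
theorem le6_trans : ∀ (b : Bool) (x y z : Fin 6), le6 b x y = true → le6 b y z = true →
    le6 b x z = true := by decide

instance (b : Bool) : Preorder (P6 b) where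
  le x y := le6 b x y = true
  le_refl := le6_refl b
  le_trans := le6_trans b

instance (b : Bool) (x y : P6 b) : Decidable (x ≤ y) :=
  inferInstanceAs (Decidable (le6 b x y = true))

def pt (b : Bool) (x : Fin 6) : P6 b := x

theorem tops6 (b : Bool) : ∀ x : P6 b, ∃ m, x ≤ m ∧ ∀ y, m ≤ y → y = m := by
  cases b <;> decide

theorem neg_five (hA : OneV A) (hU : ∀ t, UA A t → ∃ n ≤ 5, t = .fin n)
    (h3 : ∀ n ≤ 3, UA A (.fin n)) (h5 : UA A (.fin 5)) : ¬ HereditarilySC (completion (Der A)) := by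
  have hZ : ∀ x m m' : P6 true, x ≤ m → x ≤ m' → (∀ y, m ≤ y → y = m) → (∀ y, m' ≤ y → y = m') →
      ∃ y, x ≤ y ∧ y ≤ m ∧ y ≤ m' ∧ ∀ w, y ≤ w → w = y ∨ w = m ∨ w = m' := by decide
  let v : ℕ → P6 true → Prop := fun n x => x = pt true 4 ∨ (n = 1 ∧ x = pt true 5)
  have hv : Mono v := fun n x y hxy hx => by
    have : ∀ x y : P6 true, x ≤ y → (x = pt true 4 → y = pt true 4) ∧
      (x = pt true 5 → y = pt true 5) := by decide
    exact hx.imp (this x y hxy).1 fun h => ⟨h.1, (this x y hxy).2 h.2⟩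
  refine neg_frame hA 1 hU (fun n hn => h3 n (by omega)) (r := pt true 0) (x1 := pt true 1)
    (x2 := pt true 2) (fun u hu y _ => ?_) hv (by decide) (by decide)
    (ty_two (by simp only [v]; decide) (by simp only [v]; decide))
    (ty_one (by simp only [v]; decide)) ?_ ?_ ?_
  · have key : ¬ ty u y ≤ .fin 4 := fun h => by
      obtain ⟨x, -, e⟩ := ty_back _ _ h
      obtain ⟨m, m', a1, a2, a3, a4, a5, a6⟩ := two_tops hu (tops6 true) (x := x)
        (by rw [e, RN.fin_le]; omega) (by rw [e, RN.fin_le]; omega)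
      obtain ⟨z, b1, b2, b3, b4⟩ := hZ x m m' a1 a2 a3 a4
      have := ty_mono hu x z b1
      rw [e, ty_three hu b2 b3 a5 a6 b4, RN.fin_le] at this
      omega
    cases e : ty u y with
    | inf => exact (key (e ▸ RN.inf_le _)).elim
    | fin n =>
      rw [e, RN.fin_le] at key
      by_cases hn : n ≤ 3
      · exact h3 n hn
      · rwa [show n = 5 by omega]
  · rw [← ty_three hv (y := pt true 3) (m := pt true 4) (m' := pt true 5) (by decide) (by decide)
      ((ty_zero _).2 (Or.inl rfl)) (ty_one (by simp only [v]; decide)) (by decide)]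
    exact ty_mono hv _ _ (by decide)
  · exact fun h => h.elim (by simp only [v, forces_var]; decide)
      fun h => h (pt true 4) (by decide) (Or.inl rfl)
  · exact fun h => h.elim (by simp only [v, forces_var]; decide)
      fun h => h (pt true 5) (by decide) (Or.inr ⟨rfl, rfl⟩)

theorem neg_four (hA : OneV A) (hU : ∀ t, UA A t → ∃ n ≤ 4, t = .fin n)
    (h4 : ∀ n ≤ 4, UA A (.fin n)) : ¬ HereditarilySC (completion (Der A)) := by
  have hF : ∀ x m m' : P6 false, x ≤ m → x ≤ m' → (∀ y, m ≤ y → y = m) →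
      (∀ y, m' ≤ y → y = m') → m ≠ m' → ∀ w, x ≤ w := by decide
  let v : ℕ → P6 false → Prop := fun n x =>
    x = pt false 4 ∨ (n = 1 ∧ x = pt false 5) ∨ (n = 0 ∧ x = pt false 3)
  have hv : Mono v := fun n x y hxy hx => by
    have : ∀ x y : P6 false, x ≤ y → (x = pt false 4 → y = pt false 4) ∧
      (x = pt false 5 → y = pt false 5) ∧
      (x = pt false 3 → y = pt false 4 ∨ y = pt false 3) := by decide
    rcases hx with h | h | h
    · exact Or.inl ((this x y hxy).1 h)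
    · exact Or.inr (Or.inl ⟨h.1, (this x y hxy).2.1 h.2⟩)
    · exact ((this x y hxy).2.2 h.2).imp id fun e => Or.inr ⟨h.1, e⟩
  refine neg_frame hA 0 hU (fun n hn => h4 n (by omega)) (r := pt false 0) (x1 := pt false 2)
    (x2 := pt false 3) (fun u hu y _ => ?_) hv (by decide) (by decide)
    (ty_one (by simp only [v]; decide)) ((ty_zero _).2 (Or.inr (Or.inr ⟨rfl, rfl⟩))) ?_ ?_ ?_
  · have key : ¬ (ty u y ≤ .fin 3 ∧ ty u y ≤ .fin 2) := fun h => by
      obtain ⟨x, -, e⟩ := ty_back _ _ h.1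
      obtain ⟨x', -, e'⟩ := ty_back _ _ h.2
      obtain ⟨m, m', a1, a2, a3, a4, a5, a6⟩ := two_tops hu (tops6 false) (x := x)
        (by rw [e, RN.fin_le]; omega) (by rw [e, RN.fin_le]; omega)
      have := ty_mono hu x x' (hF x m m' a1 a2 a3 a4 (fun h => by rw [h, a6] at a5; cases a5) x')
      rw [e, e', RN.fin_le] at this
      omega
    cases e : ty u y with
    | inf => exact (key (e ▸ ⟨RN.inf_le _, RN.inf_le _⟩)).elim
    | fin n =>
      rw [e, RN.fin_le, RN.fin_le] at key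
      exact h4 n (by omega)
  · rw [← ty_two (v := v) (x := pt false 1) (by simp only [v]; decide)
      (by simp only [v]; decide)]
    exact ty_mono hv _ _ (by decide)
  · exact fun h => h.elim (by simp only [v, forces_var]; decide)
      fun h => h (pt false 5) (by decide) (Or.inr (Or.inl ⟨rfl, rfl⟩))
  · exact fun h => h.elim (by simp only [v, forces_var]; decide)
      fun h => h (pt false 4) (by decide) (Or.inl rfl)

theorem neg_big (hA : OneV A) (i : ℕ) (hU : ∀ t, UA A t → ∃ n ≤ i + 6, t = .fin n)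
    (h3 : ∀ n ≤ 3, UA A (.fin n)) (hm : UA A (.fin (i + 6))) :
    ¬ HereditarilySC (completion (Der A)) := by
  have d : ∀ l, ¬ Forces sv dl (RN.fin (l + 2)) := fun l h =>
    h.elim (fun h => by cases h) fun h => h (.fin 0) (Or.inr (by omega)) rfl
  exact neg_frame hA (i + 2) hU (fun n hn => h3 n (by omega)) (r := RN.fin (i + 6))
    (x1 := .fin (i + 3)) (x2 := .fin (i + 2)) (ladder_cone h3 hm) mono_sv (Or.inr (by omega))
    (Or.inr (by omega)) (ty_sv _) (ty_sv _) (by rw [ty_sv]; exact Or.inr le_rfl) (d (i + 1)) (d i)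

theorem not_hsc (hA : OneV A) {m : ℕ} (h4 : 4 ≤ m) (hU : ∀ t, UA A t → ∃ n ≤ m, t = .fin n)
    (h3 : ∀ n ≤ 3, UA A (.fin n)) (hm : UA A (.fin m)) :
    ¬ HereditarilySC (completion (Der A)) := by
  by_cases e4 : m = 4
  · subst e4
    exact neg_four hA hU fun n hn => if h : n ≤ 3 then h3 n h else by rwa [show n = 4 by omega]
  by_cases e5 : m = 5
  · subst e5
    exact neg_five hA hU h3 hm
  obtain ⟨i, rfl⟩ : ∃ i, m = i + 6 := ⟨m - 6, by omega⟩
  exact neg_big hA i hU h3 hm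

end Pool.Agent.MP_3c2488_lc.One

end

section

namespace Pool.Agent.MP_3c2488_lc.One

open Classical

variable {A : Fm}

theorem pos_of (happ : ∀ φ : Fm, ∃ l : List Fm,
    (∀ σ, Der A ∅ (φ.subst σ) → Der A ∅ ((Fm.disj l).subst σ)) ∧
      ∀ P ∈ l, ∃ θ : ℕ → Fm, Der A ∅ (φ.subst θ) ∧
        ∀ b : Fm, Der A ∅ ((b.subst θ).imp (P.imp b))) :
    HereditarilySC (completion (Der A)) := by
  rintro S ⟨-, hmono, hcut, -, -⟩ hext Γ b hΓ hadm
  have thm : ∀ c, Der A ∅ c → S ∅ c := fun c hc =>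
    hext ∅ c Set.finite_empty (completion_empty.2 hc)
  have mp : ∀ Δ a c, S Δ (a.imp c) → S Δ a → S Δ c := by
    intro Δ a c h1 h2
    refine hcut Δ {a.imp c, a} c ?_ (hext _ _ (Set.toFinite _) ⟨_, le_rfl, Set.toFinite _, ?_⟩)
    · rintro d (rfl | rfl)
      exacts [h1, h2]
    · intro σ h
      exact .mp _ _ (h _ (Or.inl rfl)) (h _ (Or.inr rfl))
  obtain ⟨l, hl1, hl2⟩ := happ (.conj hΓ.toFinset.toList)
  have h1 : S Γ (.disj l) := by
    refine hext _ _ hΓ ⟨Γ, le_rfl, hΓ, fun σ hσ => hl1 σ ?_⟩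
    rw [Fm.subst_conj]
    refine der_conj fun a ha => ?_
    obtain ⟨c, hc, rfl⟩ := List.mem_map.1 ha
    exact hσ c (by simpa using hc)
  have h2 : ∀ P ∈ l, S ∅ (P.imp b) := by
    intro P hP
    obtain ⟨θ, hθ1, hθ2⟩ := hl2 P hP
    refine mp _ _ _ (thm _ (hθ2 b)) (hadm θ fun c hc => thm _ ?_)
    rw [Fm.subst_conj] at hθ1
    exact der_of_conj hθ1 _ (List.mem_map_of_mem (by simpa using hc))
  have h3 : S ∅ ((Fm.disj l).imp b) := by
    clear h1 hl1 hl2
    induction l with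
    | nil => exact thm _ (.efq b)
    | cons P l ih =>
      exact mp _ _ _ (mp _ _ _ (thm _ (.orE P (.disj l) b)) (h2 P (by simp)))
        (ih fun Q hQ => h2 Q (by simp [hQ]))
  exact mp _ _ _ (hmono _ _ _ (Set.empty_subset _) h3) h1

/-- the extension property on one frame -/
def ExtW (W : Type) [PartialOrder W] (P : Fm) (V : Finset ℕ) : Prop :=
  ∀ v : ℕ → W → Prop, Mono v → ∀ x : W,
    (∀ y, x < y → Forces v P y) → ∃ b, b ⊆ V ∧ ExtAt P V v x b

theorem ghil (P : Fm) (V : Finset ℕ) : ∃ θ : ℕ → Fm,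
    (∀ (W : Type) [PartialOrder W] [Finite W], ExtW W P V → Valid W (P.subst θ)) ∧
      ∀ (W : Type) [Preorder W] (v : ℕ → W → Prop), Mono v → ∀ x, Forces v P x → ∀ φ : Fm,
        (Forces v (φ.subst θ) x ↔ Forces v φ x) := by
  obtain ⟨l, hl, hp⟩ := exists_sorted_subsets V
  refine ⟨lwList P l, ?_, ?_⟩
  · intro W _ _ h v hv x
    rw [forces_lwList]
    have hinv : GInv P V (∅ ∪ {a | a ∈ l}) (runV P l v) :=
      GInv.run l hv (fun _ _ _ b hb => hb.elim) (fun b hb => hb.elim) hp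
    have : WellFoundedGT W := Finite.to_wellFoundedGT
    induction x using WellFoundedGT.induction with
    | ind x ih =>
      by_contra hx
      obtain ⟨b, hb, hext⟩ := h _ (mono_runV l hv) x ih
      exact hinv x ih hx b (Or.inr (hl b hb)) hext
  · intro W _ v hv x hx φ
    rw [forces_lwList, forces_runV_of_forces l hv hx]

theorem pos_K (K : ∀ (W : Type) [PartialOrder W], Prop)
    (fm : ∀ φ, (∀ (W : Type) [PartialOrder W] [Finite W], K W → Valid W φ) → Der A ∅ φ)
    (hS : ∀ φ : Fm, ∃ S : Finset Fm, ∀ σ, Der A ∅ (φ.subst σ) →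
      ∀ (W : Type) [PartialOrder W] [Finite W], K W → ∀ v : ℕ → W → Prop, Mono v → ∀ x,
        ∃ 𝒯 ⊆ S.powerset, Forces v ((PT S 𝒯).subst σ) x ∧
          (∀ (W' : Type) [PartialOrder W'] [Finite W'], K W' → ExtW W' (PT S 𝒯) (varsOf S)) ∧
          ∀ t ∈ 𝒯, φ ∈ t) : HereditarilySC (completion (Der A)) := by
  refine pos_of fun φ => ?_
  obtain ⟨S, hS⟩ := hS φ
  let G : Finset (Finset (Finset Fm)) := S.powerset.powerset.filter fun 𝒯 =>
    (∀ (W' : Type) [PartialOrder W'] [Finite W'], K W' → ExtW W' (PT S 𝒯) (varsOf S)) ∧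
      ∀ t ∈ 𝒯, φ ∈ t
  refine ⟨G.toList.map (PT S), fun σ hσ => fm _ fun W _ _ hW v hv x => ?_, fun P hP => ?_⟩
  · obtain ⟨𝒯, h1, h2, h3⟩ := hS σ hσ W hW v hv x
    rw [forces_subst] at h2 ⊢
    exact (forces_disj _ _ _).2 ⟨PT S 𝒯, List.mem_map_of_mem (Finset.mem_toList.2
      (Finset.mem_filter.2 ⟨Finset.mem_powerset.2 h1, h3⟩)), h2⟩
  · obtain ⟨𝒯, h𝒯, rfl⟩ := List.mem_map.1 hP
    obtain ⟨-, hext, hφ⟩ := Finset.mem_filter.1 (Finset.mem_toList.1 h𝒯)
    obtain ⟨θ, h1, h2⟩ := ghil (PT S 𝒯) (varsOf S)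
    refine ⟨θ, fm _ fun W _ _ hW v hv x => ?_, fun b => ?_⟩
    · have := h1 W (hext W hW) v hv x
      rw [forces_subst] at this ⊢
      exact (Finset.mem_filter.1 (hφ _ ((forces_PT _ _ _ _).1 this x le_rfl))).2
    · rw [der_iff_can]
      intro T U _ hb V hV hP
      exact (h2 _ _ mono_canVal V hP b).1 (Forces.mono mono_canVal _ hV hb)

theorem tp_iff {S : Finset Fm} {U W : Type} [Preorder U] [Preorder W] {u : ℕ → U → Prop}
    {v : ℕ → W → Prop} {w : U} {y : W} (h : tp S u w = tp S v y) {a : Fm} (ha : a ∈ S) :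
    Forces u a w ↔ Forces v a y := by
  have := Finset.ext_iff.1 h a
  simpa [tp, ha] using this

theorem ext_of {S : Finset Fm} (hS : SubClosed S) {U W : Type} [Preorder U] [PartialOrder W]
    {u : ℕ → U → Prop} (hu : Mono u) {𝒯 : Finset (Finset Fm)} {v : ℕ → W → Prop} {x : W}
    (hx : ∀ y, x < y → Forces v (PT S 𝒯) y) {z : U} (hz : tp S u z ∈ 𝒯)
    (h1 : ∀ y, x < y → ∃ w, z ≤ w ∧ tp S u w = tp S v y)
    (h2 : ∀ w, z ≤ w → w = z ∨ ∃ y w', x < y ∧ w' ≤ w ∧ tp S u w' = tp S v y) :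
    ∃ b, b ⊆ varsOf S ∧ ExtAt (PT S 𝒯) (varsOf S) v x b := by
  refine ⟨(varsOf S).filter (fun n => u n z), Finset.filter_subset _ _, ?_, ?_⟩
  · intro n hn y hy
    rw [Finset.mem_filter] at hn
    obtain ⟨w, hw, e⟩ := h1 y hy
    exact (tp_iff e (mem_varsOf.1 hn.1)).1 (hu n z _ hw hn.2)
  · intro v' hv' k1 k2
    have above : ∀ y, x < y → ∀ a ∈ S, (Forces v' a y ↔ Forces v a y) := fun y hy a ha =>
      forces_congr_S hS a ha y fun n hn w hw => k1 n hn w (hy.trans_le hw)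
    have root : ∀ a, a ∈ S → (Forces v' a x ↔ Forces u a z) := by
      intro a
      induction a with
      | var n =>
        intro ha
        simp only [forces_var]
        rw [k2 n (mem_varsOf.2 ha), Finset.mem_filter]
        simp [mem_varsOf.2 ha]
      | bot => intro _; rfl
      | and a b iha ihb => intro ha; simp [iha (hS.and a b ha).1, ihb (hS.and a b ha).2]
      | or a b iha ihb => intro ha; simp [iha (hS.or a b ha).1, ihb (hS.or a b ha).2]
      | imp a b iha ihb =>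
        intro hab
        obtain ⟨ha, hb⟩ := hS.imp a b hab
        constructor
        · intro h w hw
          rcases h2 w hw with rfl | ⟨y, w', hy, hw', e⟩
          · rw [← iha ha, ← ihb hb]
            exact h x le_rfl
          · exact (tp_iff e hab).2 ((above y hy _ hab).1 (Forces.mono hv' _ hy.le h)) w hw'
        · intro h w hw
          rcases hw.eq_or_lt with rfl | hw
          · rw [iha ha, ihb hb]
            exact h z le_rfl
          · obtain ⟨w', hw', e⟩ := h1 w hw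
            exact (above w hw _ hab).2 ((tp_iff e hab).1 (Forces.mono hu _ hw' h)) w le_rfl
    rw [forces_PT]
    intro y hy
    rcases hy.eq_or_lt with rfl | hy
    · rwa [show tp S v' x = tp S u z from Finset.filter_congr fun a ha => root a ha]
    · rw [show tp S v' y = tp S v y from Finset.filter_congr fun a ha => above y hy a ha]
      exact (forces_PT S 𝒯 v y).1 (hx y hy) y le_rfl

theorem fm_filt {φ : Fm} {S : Finset Fm} (hS : SubClosed S) (hφ : φ ∈ S)
    (h : ∀ T₀ : Can A, Valid (Filt S T₀) φ) : Der A ∅ φ := by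
  rw [der_iff_can]
  intro T₀
  have := (filt_truth hS T₀ φ hφ _).1
    (h T₀ _ (mono_filtVal _ _) ⟨S.filter (· ∈ T₀.1), T₀, le_rfl, rfl⟩)
  rw [truth]
  exact (Finset.mem_filter.1 this).2

theorem fm_all {φ : Fm} (h : ∀ (W : Type) [PartialOrder W] [Finite W], Valid W φ) : Der A ∅ φ :=
  fm_filt (subClosed_sub φ) φ.self_mem_sub fun _ => h _

theorem pos_ipc (hV : ∀ (W : Type) [Preorder W], Valid W A) :
    HereditarilySC (completion (Der A)) := by
  refine pos_K (fun _ _ => True) (fun φ h => fm_all fun W _ _ => h W trivial)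
    fun φ => ⟨φ.sub, fun σ hσ W _ _ _ v hv x => ?_⟩
  have : Nonempty W := ⟨x⟩
  let u : ℕ → Cl W → Prop := fun n => Forces (clVal v) (σ n)
  have hu : Mono u := mono_subst (mono_clVal hv) σ
  let 𝒯 : Finset (Finset Fm) := φ.sub.powerset.filter fun t => ∃ y, tp φ.sub u y = t
  have h𝒯 : ∀ t, t ∈ 𝒯 ↔ ∃ y, tp φ.sub u y = t := by
    intro t
    simp only [𝒯, Finset.mem_filter, Finset.mem_powerset, and_iff_right_iff_imp]
    rintro ⟨y, rfl⟩
    exact Finset.filter_subset _ _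
  refine ⟨𝒯, Finset.filter_subset _ _, ?_, fun W' _ _ _ =>
    extProp_of_tight (subClosed_sub φ) u hu (fun g => Cl.tight g) 𝒯 h𝒯 W', fun t ht => ?_⟩
  · rw [forces_old, forces_subst, forces_PT]
    exact fun y _ => (h𝒯 _).2 ⟨y, rfl⟩
  · obtain ⟨y, rfl⟩ := (h𝒯 t).1 ht
    refine Finset.mem_filter.2 ⟨φ.self_mem_sub, ?_⟩
    have := hσ.valid (hV _) _ (mono_clVal hv) y
    rwa [forces_subst] at this

/-- top points -/
def IsT {W : Type} [Preorder W] (m : W) : Prop := ∀ y, m ≤ y → y = m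

/-- closure under one negation -/
noncomputable def ng (φ : Fm) : Finset Fm := insert .bot (φ.sub ∪ φ.sub.image Fm.neg)

theorem mem_ng {φ a : Fm} : a ∈ ng φ ↔ a = .bot ∨ a ∈ φ.sub ∨ ∃ c ∈ φ.sub, c.neg = a := by
  simp [ng]

theorem subClosed_ng (φ : Fm) : SubClosed (ng φ) := by
  have h := subClosed_sub φ
  have k : ∀ {a b : Fm}, a ∈ φ.sub ∧ b ∈ φ.sub → a ∈ ng φ ∧ b ∈ ng φ := fun h =>
    ⟨mem_ng.2 (Or.inr (Or.inl h.1)), mem_ng.2 (Or.inr (Or.inl h.2))⟩
  refine ⟨fun a b H => ?_, fun a b H => ?_, fun a b H => ?_⟩ <;>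
    rcases mem_ng.1 H with e | e | ⟨c, hc, e⟩
  · cases e
  · exact k (h.and a b e)
  · cases e
  · cases e
  · exact k (h.or a b e)
  · cases e
  · cases e
  · exact k (h.imp a b e)
  · cases e
    exact ⟨mem_ng.2 (Or.inr (Or.inl hc)), mem_ng.2 (Or.inl rfl)⟩

theorem filt_nonT {φ : Fm} {T₀ : Can A} {y : Filt (ng φ) T₀} (hy : ¬ IsT y) {U : Can A}
    (e : y.1 = (ng φ).filter (· ∈ U.1)) : ∃ q : Fm, ¬ Forces (canVal A) (q.or q.neg) U := by
  by_contra hn
  push Not at hn
  refine hy fun y' h => le_antisymm (fun a ha => ?_) h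
  obtain ⟨V, -, e'⟩ := y'.2
  have k : ∀ c ∈ ng φ, Forces (canVal A) c U → Forces (canVal A) c V := fun c hc h1 => by
    have : c ∈ y'.1 := h (by rw [e]; exact Finset.mem_filter.2 ⟨hc, (truth _ _).1 h1⟩)
    rw [e'] at this
    exact (truth _ _).2 (Finset.mem_filter.1 this).2
  rw [e'] at ha
  obtain ⟨ha, hV⟩ := Finset.mem_filter.1 ha
  rw [← truth] at hV
  rw [e]
  refine Finset.mem_filter.2 ⟨ha, (truth _ _).1 ?_⟩
  rcases mem_ng.1 ha with rfl | h1 | ⟨c, hc, rfl⟩
  · exact hV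
  · exact (hn a).resolve_right fun h2 =>
      k _ (mem_ng.2 (Or.inr (Or.inr ⟨a, h1, rfl⟩))) h2 V le_rfl hV
  · exact (hn c).resolve_left fun h2 => hV V le_rfl (k _ (mem_ng.2 (Or.inr (Or.inl hc))) h2)

theorem pos_cpc (hA : OneV A) (h1 : ∀ n ≤ 1, UA A (.fin n))
    (hc : ∀ (q : Fm) (T : Can A), Forces (canVal A) (q.or q.neg) T) :
    HereditarilySC (completion (Der A)) := by
  refine pos_K (fun W _ => ∀ y : W, IsT y) (fun φ h => fm_filt (subClosed_ng φ)
    (mem_ng.2 (Or.inr (Or.inl φ.self_mem_sub))) fun T₀ => h _ fun y => ?_)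
    fun φ => ⟨φ.sub, fun σ hσ W _ _ hW v hv x => ?_⟩
  · by_contra hy
    obtain ⟨U, -, e⟩ := y.2
    exact (filt_nonT hy e).elim fun q hq => hq (hc q U)
  · have hu := mono_subst hv σ
    refine ⟨{tp φ.sub (fun n => Forces v (σ n)) x}, ?_, ?_, fun W' _ _ hW' v' _ x' hx' => ?_, ?_⟩
    · exact Finset.singleton_subset_iff.2 (Finset.mem_powerset.2 (Finset.filter_subset _ _))
    · rw [forces_subst, forces_PT]
      exact fun y hy => by rw [hW x y hy]; exact Finset.mem_singleton_self _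
    · exact ext_of (subClosed_sub φ) hu hx' (Finset.mem_singleton_self _)
        (fun y hy => (hy.ne' (hW' x' y hy.le)).elim) fun w hw => Or.inl (hW x w hw)
    · intro t ht
      rw [Finset.mem_singleton.1 ht]
      refine Finset.mem_filter.2 ⟨φ.self_mem_sub, (forces_subst _ _ _ _).1 ?_⟩
      refine hσ.valid (valid_of_ty hA fun u _ y => ?_) v hv x
      rcases ty_top (v := u) (hW y) with e | e
      exacts [e ▸ h1 0 (by omega), e ▸ h1 1 le_rfl]

end Pool.Agent.MP_3c2488_lc.One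

end

section

namespace Pool.Agent.MP_3c2488_lc.One

open Classical

variable {A : Fm}

/-- the threshold formula -/
def NN : Fm := (Fm.var 0).neg.neg.or ((Fm.var 0).neg.neg.imp (.var 0))

/-- every point that is not a top sees all tops -/
def K1 (W : Type) [PartialOrder W] : Prop := ∀ y m : W, IsT m → ¬ IsT y → y ≤ m

theorem fm_K1 (hN : Der A ∅ NN) (φ : Fm)
    (h : ∀ (W : Type) [PartialOrder W] [Finite W], K1 W → Valid W φ) : Der A ∅ φ := by
  refine fm_filt (subClosed_ng φ) (mem_ng.2 (Or.inr (Or.inl φ.self_mem_sub)))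
    fun T₀ => h _ fun y m hm hy a ha => ?_
  obtain ⟨U, hU, e⟩ := y.2
  obtain ⟨M, hM, e'⟩ := m.2
  obtain ⟨q, hq⟩ := filt_nonT hy e
  rw [e] at ha
  obtain ⟨ha, hUa⟩ := Finset.mem_filter.1 ha
  rw [← truth] at hUa
  by_contra hn
  have h1 : ∀ V, M ≤ V → ¬ Forces (canVal A) a V := fun V hV h1 => by
    have := hm ⟨(ng φ).filter (· ∈ V.1), V, hM.trans hV, rfl⟩ fun c hc => by
      rw [e'] at hc
      exact Finset.mem_filter.2 ⟨(Finset.mem_filter.1 hc).1, hV (Finset.mem_filter.1 hc).2⟩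
    exact hn (this ▸ Finset.mem_filter.2 ⟨ha, (truth _ _).1 h1⟩)
  rcases der_iff_can.1 (hN.subst_thm fun _ => a.and (q.or q.neg)) T₀ with h2 | h2
  · exact h2 M hM fun V hV h3 => h1 V hV h3.1
  · refine hq (h2 U hU fun V hV h3 => ?_).2
    obtain ⟨V', hV', h4⟩ := dn_em q V
    exact h3 V' hV' ⟨Forces.mono mono_canVal _ (hV.trans hV') hUa, h4⟩

theorem exists_top {W : Type} [PartialOrder W] [Finite W] (x : W) : ∃ m, x ≤ m ∧ IsT m := by
  obtain ⟨m, hm, hmax⟩ := Finite.exists_le_maximal (p := fun _ : W => True) (a := x) trivial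
  exact ⟨m, hm, fun y hy => le_antisymm (hmax.2 trivial hy) hy⟩

theorem isT_old {W : Type} [PartialOrder W] (b : W) : IsT (Cl.old b) ↔ IsT b := by
  refine ⟨fun h y hy => Cl.old.inj (h _ ⟨y, hy, rfl⟩), fun h y hy => ?_⟩
  obtain ⟨c, hc, rfl⟩ := (Cl.old_le _ _).1 hy
  rw [h c hc]

theorem cl_top {W : Type} [PartialOrder W] [Finite W] (z : Cl W) :
    ∃ b : W, z ≤ .old b ∧ IsT (Cl.old b) := by
  induction z with
  | old a =>
    obtain ⟨m, h1, h2⟩ := exists_top a
    exact ⟨m, ⟨m, h1, rfl⟩, (isT_old m).2 h2⟩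
  | new n f ih =>
    obtain ⟨m, h1, h2⟩ := ih 0
    exact ⟨m, Or.inr ⟨0, h1⟩, h2⟩

theorem top_congr {S : Finset Fm} (hS : SubClosed S) {U W : Type} [Preorder U] [Preorder W]
    {u : ℕ → U → Prop} {v : ℕ → W → Prop} {m : U} {y : W} (hm : IsT m) (hy : IsT y)
    (h : ∀ n, Fm.var n ∈ S → (u n m ↔ v n y)) : tp S u m = tp S v y := by
  have key : ∀ a, a ∈ S → (Forces u a m ↔ Forces v a y) := by
    intro a
    induction a with
    | var n => exact h n
    | bot => exact fun _ => Iff.rfl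
    | and a b iha ihb => exact fun ha => and_congr (iha (hS.and a b ha).1) (ihb (hS.and a b ha).2)
    | or a b iha ihb => exact fun ha => or_congr (iha (hS.or a b ha).1) (ihb (hS.or a b ha).2)
    | imp a b iha ihb =>
      intro hab
      obtain ⟨ha, hb⟩ := hS.imp a b hab
      constructor
      · intro H w hw
        rw [hy w hw, ← iha ha, ← ihb hb]
        exact H m le_rfl
      · intro H w hw
        rw [hm w hw, iha ha, ihb hb]
        exact H y le_rfl
  exact Finset.filter_congr key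

/-- the classical diagram of a valuation -/
noncomputable def chi (V b : Finset ℕ) : Fm :=
  .conj (V.toList.map fun n => if n ∈ b then .var n else (Fm.var n).neg)

noncomputable def vl {X : Type} (V : Finset ℕ) (a : ℕ → X → Prop) (m : X) : Finset ℕ :=
  V.filter (a · m)

theorem sees_chi {X : Type} [Preorder X] (hT : ∀ x : X, ∃ m, x ≤ m ∧ IsT m)
    {a : ℕ → X → Prop} (ha : Mono a) {V b : Finset ℕ} (hb : b ⊆ V) (x : X) :
    ¬ Forces a (chi V b).neg x ↔ ∃ m, x ≤ m ∧ IsT m ∧ vl V a m = b := by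
  have key : ∀ m, IsT m → (Forces a (chi V b) m ↔ vl V a m = b) := by
    intro m hm
    simp only [chi, forces_conj, List.mem_map, Finset.mem_toList, forall_exists_index, and_imp,
      forall_apply_eq_imp_iff₂, vl, Finset.ext_iff, Finset.mem_filter]
    constructor
    · intro h n
      refine ⟨fun h1 => ?_, fun h1 => ⟨hb h1, ?_⟩⟩
      · by_contra hn
        have := h n h1.1
        rw [if_neg hn] at this
        exact this m le_rfl h1.2
      · have := h n (hb h1)
        rwa [if_pos h1] at this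
    · intro h n hn
      split_ifs with h1
      · exact ((h n).2 h1).2
      · exact fun y hy h2 => h1 ((h n).1 ⟨hn, hm y hy ▸ h2⟩)
  rw [forces_neg]
  push Not
  constructor
  · rintro ⟨y, hy, h⟩
    obtain ⟨m, h1, h2⟩ := hT y
    exact ⟨m, hy.trans h1, h2, (key m h2).1 (Forces.mono ha _ h1 h)⟩
  · rintro ⟨m, h1, h2, h3⟩
    exact ⟨m, h1, (key m h2).2 h3⟩

theorem mem_sub_conj {l : List Fm} {a : Fm} (h : a ∈ l) : a ∈ (Fm.conj l).sub := by
  induction l with
  | nil => cases h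
  | cons c l ih =>
    rcases List.mem_cons.1 h with rfl | h
    · simp [Fm.conj, Fm.sub, Fm.self_mem_sub]
    · simp [Fm.conj, Fm.sub, ih h]

theorem var_sub_conj {l : List Fm} {n : ℕ} (h : Fm.var n ∈ (Fm.conj l).sub) :
    ∃ a ∈ l, Fm.var n ∈ a.sub := by
  induction l with
  | nil => simp [Fm.conj, Fm.top, Fm.sub] at h
  | cons c l ih =>
    simp only [Fm.conj, Fm.sub, Finset.mem_insert, Finset.mem_union, reduceCtorEq, false_or] at h
    rcases h with h | h
    · exact ⟨c, by simp, h⟩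
    · obtain ⟨a, ha, h⟩ := ih h
      exact ⟨a, by simp [ha], h⟩

theorem exists_S (φ : Fm) : ∃ (S : Finset Fm) (V : Finset ℕ), SubClosed S ∧ φ ∈ S ∧
    (∀ b ⊆ V, (chi V b).neg ∈ S) ∧ ∀ n, Fm.var n ∈ S → n ∈ V := by
  refine ⟨(Fm.conj (φ :: (varsOf φ.sub).powerset.toList.map
    fun b => (chi (varsOf φ.sub) b).neg)).sub, varsOf φ.sub, subClosed_sub _,
    mem_sub_conj (by simp), fun b hb => mem_sub_conj (List.mem_cons_of_mem _
      (List.mem_map_of_mem (f := fun b => (chi (varsOf φ.sub) b).neg) (by simpa using hb))),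
    fun n hn => ?_⟩
  obtain ⟨a, ha, h⟩ := var_sub_conj hn
  rcases List.mem_cons.1 ha with rfl | ha
  · exact mem_varsOf.2 h
  · obtain ⟨b, -, rfl⟩ := List.mem_map.1 ha
    simp only [Fm.neg, Fm.sub, Finset.mem_insert, Finset.mem_union, reduceCtorEq, false_or,
      Finset.mem_singleton, or_false] at h
    obtain ⟨c, hc, h⟩ := var_sub_conj h
    obtain ⟨k, hk, rfl⟩ := List.mem_map.1 hc
    have : n = k := by
      split_ifs at h <;> simpa [Fm.neg, Fm.sub] using h
    exact this ▸ Finset.mem_toList.1 hk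

/-- points whose cone is a frame of the logic and whose set of tops is saturated -/
def Gd {X : Type} [Preorder X] (V : Finset ℕ) (u : ℕ → X → Prop) (z : X) : Prop :=
  ∀ y, z ≤ y → IsT y ∨ ((∀ m, IsT m → z ≤ m → y ≤ m) ∧
    ∀ m m', IsT m → IsT m' → vl V u m = vl V u m' → y ≤ m → y ≤ m')

theorem Gd.up {X : Type} [Preorder X] {V : Finset ℕ} {u : ℕ → X → Prop} {z z' : X}
    (h : Gd V u z) (hz : z ≤ z') : Gd V u z' := fun y hy =>
  (h y (hz.trans hy)).imp id fun k => ⟨fun m hm h1 => k.1 m hm (hz.trans h1), k.2⟩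

theorem gd_top {X : Type} [Preorder X] {V : Finset ℕ} {u : ℕ → X → Prop} {z : X}
    (h : IsT z) : Gd V u z := fun y hy => Or.inl (h y hy ▸ h)

theorem Gd.ty {X : Type} [Preorder X] (hT : ∀ x : X, ∃ m, x ≤ m ∧ IsT m) {V : Finset ℕ}
    {u : ℕ → X → Prop} {z : X} (h : Gd V u z) {v : ℕ → X → Prop} (hv : Mono v) :
    ∃ n ≤ 3, ty v z = .fin n := by
  have key : ¬ (One.ty v z ≤ .fin 2 ∧ One.ty v z ≤ .fin 1) := by
    rintro ⟨h2, h1⟩
    obtain ⟨a, ha, ea⟩ := ty_back _ _ h2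
    obtain ⟨b, hb, eb⟩ := ty_back _ _ h1
    obtain ⟨m, hm, hm'⟩ := hT b
    rcases h a ha with k | k
    · rcases ty_top (v := v) k with e | e <;> rw [ea] at e <;> cases e
    · have := ty_mono hv a m (k.1 m hm' (hb.trans hm))
      have e1 : One.ty v m = .fin 1 := RN.small le_rfl (eb ▸ ty_mono hv b m hm)
      rw [ea, e1, RN.fin_le] at this
      omega
  cases e : One.ty v z with
  | inf => exact (key (e ▸ ⟨RN.inf_le _, RN.inf_le _⟩)).elim
  | fin n =>
    rw [e, RN.fin_le, RN.fin_le] at key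
    exact ⟨n, by omega, rfl⟩

theorem ext_K1 {S : Finset Fm} {V : Finset ℕ} (hS : SubClosed S)
    (hχ : ∀ b ⊆ V, (chi V b).neg ∈ S) (hV : ∀ n, Fm.var n ∈ S → n ∈ V) {W : Type}
    [PartialOrder W] [Finite W] [Nonempty W] {u : ℕ → Cl W → Prop} (hu : Mono u)
    {𝒯 : Finset (Finset Fm)} (h𝒯 : ∀ t, t ∈ 𝒯 ↔ ∃ y, Gd V u y ∧ tp S u y = t)
    (W' : Type) [PartialOrder W'] [Finite W'] (hW' : K1 W') : ExtW W' (PT S 𝒯) (varsOf S) := by
  intro v hv x hx
  have hT : ∀ z : Cl W, ∃ m, z ≤ m ∧ IsT m := fun z => (cl_top z).elim fun b hb => ⟨_, hb⟩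
  have old : ∀ m : Cl W, IsT m → ∃ b, m = .old b := fun m hm =>
    (cl_top m).elim fun b hb => ⟨b, (hm _ hb.1).symm⟩
  have : Nonempty (Cl W) := ⟨.old (Classical.arbitrary W)⟩
  choose! g hg1 hg2 using fun y (hy : x < y) =>
    (h𝒯 _).1 ((forces_PT S 𝒯 v y).1 (hx y hy) y le_rfl)
  have sees : ∀ y, x < y → ∀ b ⊆ V, (∃ m, g y ≤ m ∧ IsT m ∧ vl V u m = b) ↔
      ∃ m, y ≤ m ∧ IsT m ∧ vl V v m = b := fun y hy b hb => by
    rw [← sees_chi hT hu hb, ← sees_chi exists_top hv hb, tp_iff (hg2 y hy) (hχ b hb)]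
  have sub : ∀ {X : Type} (a : ℕ → X → Prop) (m : X), vl V a m ⊆ V :=
    fun a m => Finset.filter_subset _ _
  have same : ∀ (m : Cl W) (y : W'), IsT m → IsT y → vl V u m = vl V v y →
      tp S u m = tp S v y := fun m y hm hy e => top_congr hS hm hy fun n hn => by
    have := Finset.ext_iff.1 e n
    simpa [vl, hV n hn] using this
  let Θ : Cl W → Prop := fun m => IsT m ∧ ∃ y, x < y ∧ IsT y ∧ vl V u m = vl V v y
  obtain ⟨z, hz⟩ := Cl.tight (ι := {y // x < y ∧ ¬ IsT y} ⊕ {b : W // Θ (.old b)})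
    (Sum.elim (fun y => g y.1) fun b => .old b.1)
  have hΘ : ∀ m, Θ m → z ≤ m := fun m hm => by
    obtain ⟨b, rfl⟩ := old m hm.1
    exact (hz _).2 (Or.inr ⟨.inr ⟨b, hm⟩, le_rfl (a := Cl.old b)⟩)
  have hΘ' : ∀ m, IsT m → z ≤ m → m = z ∨ Θ m := fun m hm h => by
    refine ((hz m).1 h).imp id ?_
    rintro ⟨y | b, h⟩
    · obtain ⟨y1, h1, h2, h3⟩ := (sees y.1 y.2.1 _ (sub u m)).1 ⟨m, h, hm, rfl⟩
      exact ⟨hm, y1, y.2.1.trans_le h1, h2, h3.symm⟩
    · exact b.2.1 m h ▸ b.2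
  have hgz : Gd V u z := by
    intro w hw
    by_cases hwT : IsT w
    · exact Or.inl hwT
    have hzT : ∀ m, IsT m → m ≠ z := fun m hm e => hwT (by
      rw [e] at hm
      exact hm w hw ▸ hm)
    right
    rcases (hz w).1 hw with rfl | ⟨y | b, h⟩
    · refine ⟨fun _ _ h => h, fun m m' hm hm' e h => hΘ m' ⟨hm', ?_⟩⟩
      rw [← e]
      exact ((hΘ' m hm h).resolve_left (hzT m hm)).2
    · obtain ⟨k1, k2⟩ := (hg1 y.1 y.2.1 w h).resolve_left hwT
      refine ⟨fun m hm h1 => ?_, k2⟩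
      obtain ⟨-, y1, -, h2, h3⟩ := (hΘ' m hm h1).resolve_left (hzT m hm)
      obtain ⟨m', h4, h5, h6⟩ := (sees y.1 y.2.1 _ (sub v y1)).2
        ⟨y1, hW' _ _ h2 y.2.2, h2, rfl⟩
      exact k2 m' m h5 hm (h6.trans h3.symm) (k1 m' h5 h4)
    · exact (hwT (b.2.1 w h ▸ b.2.1)).elim
  refine ext_of hS hu hx ((h𝒯 _).2 ⟨z, hgz, rfl⟩) (fun y hy => ?_) fun w hw => ?_
  · by_cases hyT : IsT y
    · obtain ⟨m, -, h2, h3⟩ := (sees y hy _ (sub v y)).2 ⟨y, le_rfl, hyT, rfl⟩
      exact ⟨m, hΘ m ⟨h2, y, hy, hyT, h3⟩, same m y h2 hyT h3⟩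
    · exact ⟨g y, (hz _).2 (Or.inr ⟨.inl ⟨y, hy, hyT⟩, le_rfl (a := g y)⟩), hg2 y hy⟩
  · refine ((hz w).1 hw).imp id ?_
    rintro ⟨y | b, h⟩
    · exact ⟨y.1, g y.1, y.2.1, h, hg2 y.1 y.2.1⟩
    · obtain ⟨h1, y, h2, h3, h4⟩ := b.2
      exact ⟨y, .old b.1, h2, h, same _ y h1 h3 h4⟩

theorem pos_nl (hA : OneV A) (h3 : ∀ n ≤ 3, UA A (.fin n)) (hN : Der A ∅ NN) :
    HereditarilySC (completion (Der A)) := by
  refine pos_K (fun W _ => K1 W) (fm_K1 hN) fun φ => ?_
  obtain ⟨S, V, hS, hφ, hχ, hV⟩ := exists_S φ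
  refine ⟨S, fun σ hσ W _ _ hW v hv x => ?_⟩
  have : Nonempty W := ⟨x⟩
  have hT : ∀ z : Cl W, ∃ m, z ≤ m ∧ IsT m := fun z => (cl_top z).elim fun b hb => ⟨_, hb⟩
  let u : ℕ → Cl W → Prop := fun n => Forces (clVal v) (σ n)
  have hu : Mono u := mono_subst (mono_clVal hv) σ
  let 𝒯 : Finset (Finset Fm) := S.powerset.filter fun t => ∃ y, Gd V u y ∧ tp S u y = t
  have h𝒯 : ∀ t, t ∈ 𝒯 ↔ ∃ y, Gd V u y ∧ tp S u y = t := by
    intro t
    simp only [𝒯, Finset.mem_filter, Finset.mem_powerset, and_iff_right_iff_imp]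
    rintro ⟨y, -, rfl⟩
    exact Finset.filter_subset _ _
  refine ⟨𝒯, Finset.filter_subset _ _, ?_, fun W' _ _ hW' => ext_K1 hS hχ hV hu h𝒯 W' hW',
    fun t ht => ?_⟩
  · rw [forces_old, forces_subst, forces_PT]
    refine fun y hy => (h𝒯 _).2 ⟨y, fun w hw => ?_, rfl⟩
    obtain ⟨b, -, rfl⟩ := (Cl.old_le _ _).1 (hy.trans hw)
    by_cases hb : IsT (Cl.old b)
    · exact Or.inl hb
    have : ∀ m : Cl W, IsT m → Cl.old b ≤ m := fun m hm => by
      obtain ⟨c, h1, h2⟩ := cl_top m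
      rw [← hm _ h1]
      exact ⟨c, hW b c ((isT_old c).1 h2) (fun h => hb ((isT_old b).2 h)), rfl⟩
    exact Or.inr ⟨fun m hm _ => this m hm, fun _ m' _ hm' _ _ => this m' hm'⟩
  · obtain ⟨y, hy, rfl⟩ := (h𝒯 t).1 ht
    refine Finset.mem_filter.2 ⟨hφ, (forces_subst _ _ _ _).1 ?_⟩
    refine cone_sound (fun w hw y' hy' => (forces_one hA hw y').2 ?_) hσ (mono_clVal hv)
    obtain ⟨n, hn, e⟩ := (hy.up hy').ty hT hw
    exact e ▸ h3 n hn

end Pool.Agent.MP_3c2488_lc.One

end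

section

namespace Pool.Agent.MP_3c2488_lc.One

open Classical

variable {A : Fm}

theorem forces_NN {W : Type} [Preorder W] {v : ℕ → W → Prop} (hv : Mono v) (x : W) :
    Forces v NN x ↔ ¬ (ty v x ≤ .fin 2 ∧ ty v x ≤ .fin 1) := by
  have h2 : ∀ y, Forces v (Fm.var 0).neg.neg y ↔ Forces v (ff 2) y := fun y =>
    ⟨fun h z hz h1 => (h z hz h1).elim, fun h z hz h1 => (h z hz h1).elim id (h1 z le_rfl)⟩
  have h3 : Forces v ((Fm.var 0).neg.neg.imp (.var 0)) x ↔ Forces v (ff 3) x :=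
    ⟨fun h z hz h1 => Or.inl (Or.inr (h z hz ((h2 z).2 h1))), fun h z hz h1 =>
      (h z hz ((h2 z).1 h1)).elim (fun k => k.elim False.elim id) fun k => (h1 z le_rfl k).elim⟩
  rw [NN, forces_or, h2, h3, forces_ff hv, forces_ff hv]
  tauto

theorem can_self (hA : OneV A) (T : Can A) : UA A (ty (canVal A) T) := by
  have := der_iff_can.1 (Der.extra (A := A) (Γ := ∅) Fm.var) T
  rw [Fm.subst_var] at this
  exact (forces_one hA mono_canVal T).1 this

theorem valid_top (W : Type) [Preorder W] : Valid W Fm.top := fun _ _ _ _ _ h => h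

theorem ipc_of_all (hA : OneV A) (h : ∀ n, UA A (.fin n)) : Der Fm.top ∅ A := by
  refine fm_all fun W _ _ => valid_of_ty hA fun v _ x => ?_
  cases e : ty v x with
  | fin n => exact h n
  | inf =>
    choose y _ hy using fun k => ty_back (v := v) x (.fin k) (e ▸ RN.inf_le _)
    exact (not_injective_infinite_finite y fun a b hab =>
      RN.fin.inj ((hy a).symm.trans (hab ▸ hy b))).elim

theorem case_incons (hA : OneV A) (h : ¬ (UA A (.fin 0) ∧ UA A (.fin 1))) (b : Fm) :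
    Der A ∅ b := by
  refine der_iff_can.2 fun T => (h ⟨?_, ?_⟩).elim
  · have := can_ty hA .top T
    rwa [(ty_zero T).2 ((forces_top _ _).2 trivial)] at this
  · have := can_ty hA .bot T
    rwa [ty_one fun _ _ h => h] at this

theorem case_em (hA : OneV A) (h : ¬ UA A (.fin 2)) (q : Fm) (T : Can A) :
    Forces (canVal A) (q.or q.neg) T := by
  by_contra hn
  have := can_ty hA (q.or q.neg) T
  rw [ty_two hn fun y _ => dn_em q y] at this
  exact h this

theorem case_wem (hA : OneV A) (h : ¬ UA A (.fin 3)) (q : Fm) (T : Can A) :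
    Forces (canVal A) q.neg T ∨ Forces (canVal A) q.neg.neg T := by
  by_contra hn
  rw [not_or, forces_neg, forces_neg] at hn
  push Not at hn
  obtain ⟨⟨a, ha, ha'⟩, b, hb, hb'⟩ := hn
  have hv := mono_subst (mono_canVal (A := A)) fun _ => q.neg
  have one : ∀ y z, y ≤ z → Forces (canVal A) q z →
      ty (fun _ => Forces (canVal A) q.neg) y ≤ .fin 1 := fun y z hz h1 =>
    (sees_iff hv y _).1 ⟨z, hz, ty_one fun w hw h2 =>
      h2 w le_rfl (Forces.mono mono_canVal _ hw h1)⟩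
  have h1 := one T a ha ha'
  have h0 := (sees_iff hv T _).1 ⟨b, hb, (ty_zero b).2 hb'⟩
  have h2 : ¬ ty (fun _ => Forces (canVal A) q.neg) T ≤ .fin 2 := fun k => by
    obtain ⟨y, -, e⟩ := ty_back _ _ k
    have k0 : ¬ Forces (canVal A) q.neg y := fun k0 => by
      rw [(ty_zero y).2 k0] at e
      cases e
    rw [forces_neg] at k0
    push Not at k0
    obtain ⟨z, hz, k1⟩ := k0
    have := one y z hz k1
    rw [e, RN.fin_le] at this
    omega
  have h3 := can_ty hA q.neg T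
  cases e : ty (fun _ => Forces (canVal A) q.neg) T with
  | inf => exact h2 (e ▸ RN.inf_le _)
  | fin n =>
    rw [e] at h3
    rw [e, RN.fin_le] at h0 h1 h2
    exact h (by rwa [show n = 3 by omega] at h3)

theorem low (hA : OneV A) (h : ¬ ∀ n ≤ 3, UA A (.fin n)) :
    HereditarilySC (completion (Der A)) ∧ Der A ∅ NN := by
  by_cases h01 : UA A (.fin 0) ∧ UA A (.fin 1)
  swap
  · exact ⟨pos_of fun φ => ⟨[], fun _ _ => case_incons hA h01 _, by simp⟩, case_incons hA h01 _⟩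
  have h1 : ∀ n ≤ 1, UA A (.fin n) := fun n hn => by
    interval_cases n
    exacts [h01.1, h01.2]
  by_cases h2 : UA A (.fin 2)
  swap
  · refine ⟨pos_cpc hA h1 (case_em hA h2), der_iff_can.2 fun T => Or.inr fun U _ k => ?_⟩
    exact (case_em hA h2 (.var 0) U).resolve_right fun k1 => k U le_rfl k1
  have h2' : ∀ n ≤ 2, UA A (.fin n) := fun n hn =>
    if e : n ≤ 1 then h1 n e else by rwa [show n = 2 by omega]
  have h3 : ¬ UA A (.fin 3) := fun h3 => h fun n hn =>
    if e : n ≤ 2 then h2' n e else by rwa [show n = 3 by omega]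
  refine ⟨positive (K := 2) (fun σ => der_iff_can.2 fun T => ?_)
    fun W _ hW => valid_of_ty hA fun v hv x => ?_, der_iff_can.2 fun T => ?_⟩
  · rw [forces_subst]
    by_contra hn
    rw [not_forces_gL] at hn
    obtain ⟨a, ha, ha'⟩ := hn 0 (by omega)
    obtain ⟨b, hb, hb'⟩ := hn 1 (by omega)
    rw [forces_col] at ha' hb'
    rcases case_wem hA h3 (σ 0) T with k | k
    · exact k a ha ha'.1
    · exact k b hb (hb'.2 0 (by omega) (by omega))
  · obtain ⟨n, hn, e⟩ := ty_few hW hv x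
    exact e ▸ h2' n hn
  · exact (case_wem hA h3 (.var 0) T).elim
      (fun k => Or.inr fun U hU k1 => (k1 U le_rfl (Forces.mono mono_canVal _ hU k)).elim) Or.inl

theorem classify (hA : OneV A) :
    HereditarilySC (completion (Der A)) ↔ Der Fm.top ∅ A ∨ Der A ∅ NN := by
  by_cases hall : ∀ n, UA A (.fin n)
  · have h := ipc_of_all hA hall
    exact ⟨fun _ => Or.inl h, fun _ => pos_ipc fun W _ => h.valid (valid_top W)⟩
  by_cases h3 : ∀ n ≤ 3, UA A (.fin n)
  swap
  · exact ⟨fun _ => Or.inr (low hA h3).2, fun _ => (low hA h3).1⟩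
  by_cases h45 : UA A (.fin 4) ∨ UA A (.fin 5)
  swap
  · have hN : Der A ∅ NN := der_iff_can.2 fun T => (forces_NN mono_canVal T).2 fun k => by
      have h := can_self hA T
      cases e : ty (canVal A) T with
      | inf => exact h45 (Or.inl ((e ▸ h).mono (RN.inf_le _)))
      | fin n =>
        rw [e] at h
        rw [e, RN.fin_le, RN.fin_le] at k
        by_cases e5 : n = 5
        · exact h45 (Or.inr (e5 ▸ h))
        · exact h45 (Or.inl (h.mono (by rw [RN.fin_le]; omega)))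
    exact ⟨fun _ => Or.inr hN, fun _ => pos_nl hA h3 hN⟩
  push Not at hall
  obtain ⟨n0, hn0⟩ := hall
  have hb : ∀ t, UA A t → ∃ n ≤ n0 + 1, t = .fin n := by
    rintro (n | _) ht
    · exact ⟨n, by_contra fun k => hn0 (ht.down (by omega)), rfl⟩
    · exact (hn0 (ht.mono (RN.inf_le _))).elim
  have hle : ∀ n, UA A (.fin n) → n ≤ Nat.findGreatest (fun n => UA A (.fin n)) (n0 + 1) :=
    fun n hn => by
      obtain ⟨k, hk, e⟩ := hb _ hn
      exact Nat.le_findGreatest (RN.fin.inj e ▸ hk) hn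
  have hm := Nat.findGreatest_spec (P := fun n => UA A (.fin n)) (Nat.zero_le (n0 + 1))
    (h3 0 (by omega))
  generalize Nat.findGreatest (fun n => UA A (.fin n)) (n0 + 1) = m at hle hm
  have h4 : 4 ≤ m := h45.elim (hle 4) fun h => (hle 5 h).trans' (by omega)
  refine iff_of_false (not_hsc hA h4 (fun t ht => ?_) h3 hm) ?_
  · obtain ⟨n, -, rfl⟩ := hb t ht
    exact ⟨n, hle n ht, rfl⟩
  · rintro (h | h)
    · exact hn0 (h.valid (valid_top RN) sv mono_sv _)
    · refine (forces_NN mono_sv _).1 (cone_sound (x0 := RN.fin m) (fun v hv y hy =>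
        (forces_one hA hv y).2 (ladder_cone h3 hm v hv y hy)) h mono_sv) ?_
      rw [ty_sv, RN.fin_le, RN.fin_le]
      omega

end Pool.Agent.MP_3c2488_lc.One

end
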